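import Pool.Agent.helper42.TonEsc

/-!
C²-density of potentials with an orbit that tends to infinity, for every flat torus of
dimension at least four.
-/

namespace Pool.Agent.Results.MP_6acca1_an.EscapeDense

open Ton Filter

theorem result (n : ℕ) (hn : 4 ≤ n) (A : Matrix (Fin n) (Fin n) ℝ) (hA : A.PosDef)
    (f : (Fin n → ℝ) × ℝ → ℝ) (hf : IsC2Torus f) (ε : ℝ) (hε : 0 < ε) :
    ∃ g : (Fin n → ℝ) × ℝ → ℝ, IsC2Torus g ∧ C2Close ε f g ∧
      ∃ x : ℝ → Fin n → ℝ, IsELOrbit (Lag A g) x ∧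
        Tendsto (fun t => ‖deriv x t‖) atTop atTop :=
  escape_dense hn hA hf hε

end Pool.Agent.Results.MP_6acca1_an.EscapeDense
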