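import Pool.Agent.helper42.TonEsc

/-!
For every flat torus of dimension at least four, unbounded growth of the speed by any prescribed
function is a C²-open and C²-dense property of the potential.
-/

namespace Pool.Agent.Results.MP_6acca1_an.GrowthOpenDense

open Ton

theorem result (n : ℕ) (hn : 4 ≤ n) (A : Matrix (Fin n) (Fin n) ℝ) (hA : A.PosDef)
    (Ψ : ℝ → ℝ) (N : ℝ) :
    (∀ f : (Fin n → ℝ) × ℝ → ℝ, IsC2Torus f → ∀ ε > 0,
      ∃ g, IsC2Torus g ∧ C2Close ε f g ∧ Grows (Lag A g) Ψ N) ∧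
    (∀ f : (Fin n → ℝ) × ℝ → ℝ, IsC2Torus f → Grows (Lag A f) Ψ N →
      ∃ δ > 0, ∀ g, IsC2Torus g → C2Close δ f g → Grows (Lag A g) Ψ N) :=
  ⟨fun _ hf _ hε => grows_dense hn hA Ψ N hf hε, fun _ hf h => grows_open hA Ψ N hf h⟩

end Pool.Agent.Results.MP_6acca1_an.GrowthOpenDense
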